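import Pool.Agent.Helper42.T4.Union
import Pool.Agent.Helper66.T4.Rep
import Pool.Agent.Helper54.T4.Z4
import Pool.Agent.Helper44.T4.Fin
import Pool.Agent.Helper27.T4.Sch
import Pool.Agent.Helper50.ET.Count
import Pool.Agent.Helper72.T4.NearBlock

/-! # T4': the final theorem from the blocks M and F -/

set_option autoImplicit false

namespace Pool.Agent.Helper42.T4

open Finset Pool.Agent.Helper5.ET Pool.Agent.Helper66.T4

theorem schedule_facts : SF where
  mono := Pool.Agent.Helper27.T4.tau_strictMono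
  gapm := Pool.Agent.Helper27.T4.gap_mono
  gsize := Pool.Agent.Helper27.T4.gap_size

theorem horizon_unbounded : ∀ M : ℕ, ∃ S : ℕ, M < Nj (sk S) := by
  intro M
  refine ⟨M + 1, ?_⟩
  have h1 : M + 1 ≤ sk (M + 1) := (Pool.Agent.Helper66.T4.sk_strictMono schedule_facts).le_apply
  have h2 : sk (M + 1) ≤ Nj (sk (M + 1)) :=
    (Nat.lt_two_pow_self).le.trans (Pool.Agent.Helper66.T4.two_pow_le_Nj _)
  omega

/-- **T4' from the meso block and the macro block.** -/
theorem final_of_blocks (hM : MesoC (1 / 100)) (hF : MacroC (1 / 100)) :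
    ∃ (A : Set ℕ) (C : ℝ), 0 < C ∧
    (∀ n : ℕ, 2 ≤ n → (({q : ℕ × ℕ | q.1 ∈ A ∧ q.2 ∈ A ∧ q.1 + q.2 = n}.ncard : ℕ) : ℝ) ≤
      C * Real.sqrt (Real.log n)) ∧
    ∀ x : ℕ, 2 ≤ x → Real.sqrt x / (C * (Real.log x) ^ 3) ≤ ((A ∩ Set.Iio x).ncard : ℝ) := by
  obtain ⟨C, θ, η, s0, hC, hθ, hη, hG⟩ :=
    exists_good (1 / 100) Pool.Agent.Helper72.T4.near_block hM hF
  obtain ⟨s1, C1, hC1, hrep⟩ := rep_bound schedule_facts
    (fun s w a ha => Pool.Agent.Helper50.ET.AA_range s w a ha) C (1 / 100) θ η (by linarith) hη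
  obtain ⟨C2, hC2, hcnt⟩ := Pool.Agent.Helper54.T4.z4 Pool.Agent.Helper50.ET.count_block
    (max s0 s1)
  refine Pool.Agent.Helper44.T4.final_of_horizon (fun S => Nj (sk S)) horizon_unbounded
    (C1 + C2) (by linarith) fun S => ?_
  obtain ⟨w, hw⟩ := hG S
  have hw' : Good (max s0 s1) S C (1 / 100) θ η w := hw.mono (le_max_left _ _)
  refine ⟨AS (max s0 s1) S w, fun n hn => ?_, fun x hx hxS => ?_⟩
  · refine (hrep _ S w (le_max_right _ _) hw' n).trans ?_
    exact mul_le_mul_of_nonneg_right (by linarith) (Real.sqrt_nonneg _)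
  · refine le_trans ?_ (hcnt S w hw.val x hx hxS)
    have hx1 : (1 : ℝ) < x := by exact_mod_cast (by omega : 1 < x)
    have hlog : 0 < Real.log x := Real.log_pos hx1
    apply div_le_div_of_nonneg_left (Real.sqrt_nonneg _) (by positivity)
    exact mul_le_mul_of_nonneg_right (by linarith) (by positivity)

end Pool.Agent.Helper42.T4
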