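import Pool.Agent.Helper66.T4.Good
import Pool.Agent.Helper53.TF.Cond
import Pool.Agent.Helper50.ET.VCount

/-! # T4', block Z2: union bound over all pairs of states -/

set_option autoImplicit false

namespace Pool.Agent.Helper42.T4

open Finset Pool.Agent.Helper5.ET Pool.Agent.Helper66.T4 Pool.Agent.Helper53.TF

/-- statement of the block N -/
def NearB : Prop := ∃ (C : ℝ) (s0 : ℕ), ∀ s ≥ s0, ∀ s', (s' = s ∨ s' + 1 = s) →
    ∀ K : Finset Key, keysOf s ⊆ K → keysOf s' ⊆ K →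
      PrLe K (fun w => ∃ n, C * ((sg s : ℝ) / Real.log (sg s)) < Rp s s' w n)
        (Real.exp (-(Real.sqrt (sl s))))

/-- statement of the block M for the constant `c0` -/
def MesoC (c0 : ℝ) : Prop := ∃ (C : ℝ) (s0 : ℕ), ∀ s s' : ℕ, s0 ≤ s' → s' + 2 ≤ s →
    (sl s : ℝ) - sl s' ≤ c0 * sl s →
    ∀ K : Finset Key, keysOf s ⊆ K → keysOf s' ⊆ K →
      PrLe K (fun w => ∃ n, C * ((sl s : ℝ) / ((sl s : ℝ) - sl s')) < Rp s s' w n)
        (Real.exp (-(Real.sqrt (sl s))))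

/-- statement of the block F for the constant `c0` -/
def MacroC (c0 : ℝ) : Prop := ∃ θ η : ℝ, 0 < θ ∧ 0 < η ∧
    (∃ (C : ℝ) (s0 : ℕ), ∀ s s' : ℕ, s0 ≤ s →
      c0 * sl s ≤ (sl s : ℝ) - sl s' → θ * sl s ≤ sl s' →
      ∀ K : Finset Key, keysOf s ⊆ K → keysOf s' ⊆ K →
        PrLe K (fun w => ∃ n, C < Rp s s' w n) (Real.exp (-(Real.sqrt (sl s))))) ∧
    (∃ (C : ℝ) (s0 : ℕ), ∀ s ≥ s0, ∀ j : ℕ, (j : ℝ) ≤ (θ + η) * sl s →
      ∀ K : Finset Key, keysOf s ⊆ K →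
        PrLe K (fun w => ∃ y, C < (((AA s w).filter (fun a => y ≤ a ∧ a < y + Nj j)).card : ℝ))
          (Real.exp (-(Real.sqrt (sl s)))))

/-- the failure bound summed over the states -/
noncomputable def ff (s : ℕ) : ℝ := ((s : ℝ) + 1) * (4 * Real.exp (-(Real.sqrt ((s / 2 : ℕ) : ℝ))))

theorem ff_nonneg (s : ℕ) : 0 ≤ ff s := by unfold ff; positivity

theorem exp_sqrt_le (m : ℕ) (hm : 1 ≤ m) :
    Real.exp (-(Real.sqrt (m : ℝ))) ≤ 720 / (m : ℝ) ^ 3 := by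
  have h0 : (0 : ℝ) ≤ Real.sqrt m := Real.sqrt_nonneg _
  have hm0 : (0 : ℝ) < m := by exact_mod_cast hm
  have h1 := Real.pow_div_factorial_le_exp (Real.sqrt m) h0 6
  have h2 : Real.sqrt (m : ℝ) ^ 6 = (m : ℝ) ^ 3 := by
    have : Real.sqrt (m : ℝ) ^ 6 = (Real.sqrt (m : ℝ) ^ 2) ^ 3 := by ring
    rw [this, Real.sq_sqrt hm0.le]
  rw [h2] at h1
  have h3 : ((Nat.factorial 6 : ℕ) : ℝ) = 720 := by norm_num [Nat.factorial]
  rw [h3] at h1
  rw [Real.exp_neg, inv_le_comm₀ (Real.exp_pos _) (by positivity), inv_div]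
  exact h1

theorem ff_le (s : ℕ) (hs : 2 ≤ s) : ff s ≤ 155520 * (1 / (s : ℝ) ^ 2) := by
  unfold ff
  have hm : 1 ≤ s / 2 := by omega
  have h1 := exp_sqrt_le (s / 2) hm
  have hs0 : (0 : ℝ) < s := by exact_mod_cast (by omega : 0 < s)
  have h2 : (s : ℝ) / 3 ≤ ((s / 2 : ℕ) : ℝ) := by
    have : s ≤ 3 * (s / 2) := by omega
    have : (s : ℝ) ≤ 3 * ((s / 2 : ℕ) : ℝ) := by exact_mod_cast this
    linarith
  have h3 : 720 / ((s / 2 : ℕ) : ℝ) ^ 3 ≤ 720 / ((s : ℝ) / 3) ^ 3 := by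
    apply div_le_div_of_nonneg_left (by norm_num) (by positivity)
    exact pow_le_pow_left₀ (by positivity) h2 3
  have h4 : Real.exp (-(Real.sqrt ((s / 2 : ℕ) : ℝ))) ≤ 720 / ((s : ℝ) / 3) ^ 3 := h1.trans h3
  have h5 : (s : ℝ) + 1 ≤ 2 * s := by
    have : (1 : ℝ) ≤ s := by exact_mod_cast (by omega : 1 ≤ s)
    linarith
  calc ((s : ℝ) + 1) * (4 * Real.exp (-(Real.sqrt ((s / 2 : ℕ) : ℝ))))
      ≤ (2 * s) * (4 * (720 / ((s : ℝ) / 3) ^ 3)) := by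
        apply mul_le_mul h5 _ (by positivity) (by positivity)
        exact mul_le_mul_of_nonneg_left h4 (by norm_num)
    _ = 155520 * (1 / (s : ℝ) ^ 2) := by field_simp; ring

theorem ff_summable : Summable ff := by
  have h : Summable (fun s : ℕ => 155520 * (1 / (s : ℝ) ^ 2)) :=
    (Real.summable_one_div_nat_pow.2 (by norm_num)).mul_left _
  refine Summable.of_norm_bounded_eventually_nat h ?_
  filter_upwards [Filter.eventually_ge_atTop 2] with s hs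
  rw [Real.norm_of_nonneg (ff_nonneg s)]
  exact ff_le s hs

theorem ff_tail : ∃ s0 : ℕ, ∀ S, ∑ s ∈ Ico s0 S, ff s < 1 := by
  obtain ⟨t, ht⟩ := summable_iff_vanishing_norm.1 ff_summable 1 one_pos
  refine ⟨t.sup id + 1, fun S => ?_⟩
  have h := ht (Ico (t.sup id + 1) S) (by
    rw [Finset.disjoint_left]
    intro a ha hat
    have := Finset.le_sup (f := id) hat
    simp only [id] at this
    rw [mem_Ico] at ha
    omega)
  exact lt_of_le_of_lt (le_abs_self _) h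

theorem sl_ge (s : ℕ) : s / 2 ≤ sl s := Pool.Agent.Helper50.ET.tau_mono.le_apply

theorem exp_le_ff (s : ℕ) : ((s : ℝ) + 1) * (4 * Real.exp (-(Real.sqrt (sl s)))) ≤ ff s := by
  unfold ff
  have h : Real.sqrt ((s / 2 : ℕ) : ℝ) ≤ Real.sqrt (sl s) :=
    Real.sqrt_le_sqrt (by exact_mod_cast sl_ge s)
  have h2 : Real.exp (-(Real.sqrt (sl s))) ≤ Real.exp (-(Real.sqrt ((s / 2 : ℕ) : ℝ))) :=
    Real.exp_le_exp.2 (by linarith)
  have h3 : (0 : ℝ) ≤ (s : ℝ) + 1 := by positivity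
  exact mul_le_mul_of_nonneg_left (mul_le_mul_of_nonneg_left h2 (by norm_num)) h3

theorem sl_mono {s' s : ℕ} (h : s' ≤ s) : (sl s' : ℝ) ≤ sl s := by
  have : sl s' ≤ sl s := Pool.Agent.Helper50.ET.tau_mono.monotone (by omega)
  exact_mod_cast this

theorem near_nonneg (s : ℕ) : (0 : ℝ) ≤ (sg s : ℝ) / Real.log (sg s) := by
  have h : 8 ≤ sg s := Pool.Agent.Helper50.ET.gap_ge _
  have h1 : (1 : ℝ) ≤ (sg s : ℝ) := by exact_mod_cast (by omega : 1 ≤ sg s)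
  exact div_nonneg (by linarith) (Real.log_nonneg h1)

theorem meso_nonneg {s' s : ℕ} (h : s' ≤ s) : (0 : ℝ) ≤ (sl s : ℝ) / ((sl s : ℝ) - sl s') := by
  have := sl_mono h
  exact div_nonneg (Nat.cast_nonneg _) (by linarith)

/-- **Block Z2.** -/
theorem exists_good (c0 : ℝ) (hN : NearB) (hM : MesoC c0) (hF : MacroC c0) :
    ∃ (C θ η : ℝ) (s0 : ℕ), 1 ≤ C ∧ 0 < θ ∧ 0 < η ∧
      ∀ S, ∃ w, Good s0 S C c0 θ η w := by
  obtain ⟨CN, sN, hN⟩ := hN
  obtain ⟨CM, sM, hM⟩ := hM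
  obtain ⟨θ, η, hθ, hη, ⟨CF, sF, hF⟩, CT, sT, hT⟩ := hF
  obtain ⟨s1, hs1⟩ := ff_tail
  set C : ℝ := max 1 (max (max CN CM) (max CF CT)) with hC
  have hC1 : 1 ≤ C := le_max_left _ _
  have hCN : CN ≤ C := ((le_max_left _ _).trans (le_max_left _ _)).trans (le_max_right _ _)
  have hCM : CM ≤ C := ((le_max_right _ _).trans (le_max_left _ _)).trans (le_max_right _ _)
  have hCF : CF ≤ C := ((le_max_left _ _).trans (le_max_right _ _)).trans (le_max_right _ _)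
  have hCT : CT ≤ C := ((le_max_right _ _).trans (le_max_right _ _)).trans (le_max_right _ _)
  set s0 : ℕ := max s1 (max (max sN sM) (max sF sT)) with hs0
  refine ⟨C, θ, η, s0, hC1, hθ, hη, fun S => ?_⟩
  set K : Finset Key := (range S).biUnion keysOf with hK
  have hKs : ∀ s, s < S → keysOf s ⊆ K := fun s hs => subset_biUnion_of_mem keysOf (mem_range.2 hs)
  -- the bad events
  let B1 : ℕ → ℕ → (Key → ℕ) → Prop := fun s s' w => (s' = s ∨ s' + 1 = s) ∧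
    ∃ n, CN * ((sg s : ℝ) / Real.log (sg s)) < Rp s s' w n
  let B2 : ℕ → ℕ → (Key → ℕ) → Prop := fun s s' w => (s0 ≤ s' ∧ s' + 2 ≤ s ∧
    (sl s : ℝ) - sl s' ≤ c0 * sl s) ∧ ∃ n, CM * ((sl s : ℝ) / ((sl s : ℝ) - sl s')) < Rp s s' w n
  let B3 : ℕ → ℕ → (Key → ℕ) → Prop := fun s s' w => (c0 * sl s ≤ (sl s : ℝ) - sl s' ∧
    θ * sl s ≤ sl s') ∧ ∃ n, CF < Rp s s' w n
  let B4 : ℕ → ℕ → (Key → ℕ) → Prop := fun s _ w =>
    ∃ y, CT < (((AA s w).filter (fun a => y ≤ a ∧ a < y + Nj ⌊(θ + η) * sl s⌋₊)).card : ℝ)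
  have hev : ∀ s ∈ Ico s0 S, ∀ s' ∈ range (s + 1),
      PrLe K (fun w => (B1 s s' w ∨ B2 s s' w) ∨ (B3 s s' w ∨ B4 s s' w))
        (4 * Real.exp (-(Real.sqrt (sl s)))) := by
    intro s hs s' hs'
    rw [mem_Ico] at hs
    rw [mem_range] at hs'
    have e : 4 * Real.exp (-(Real.sqrt (sl s))) =
        (Real.exp (-(Real.sqrt (sl s))) + Real.exp (-(Real.sqrt (sl s)))) +
        (Real.exp (-(Real.sqrt (sl s))) + Real.exp (-(Real.sqrt (sl s)))) := by ring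
    rw [e]
    have hE : (0 : ℝ) ≤ Real.exp (-(Real.sqrt (sl s))) := (Real.exp_pos _).le
    have k1 := hKs s hs.2
    have k2 := hKs s' (by omega)
    refine PrLe_or (PrLe_or ?_ ?_) (PrLe_or ?_ ?_)
    · by_cases h : s' = s ∨ s' + 1 = s
      · exact PrLe_mono (fun _ _ hw => hw.2) le_rfl (hN s (by omega) s' h K k1 k2)
      · exact PrLe_false (fun _ _ hw => h hw.1) hE
    · by_cases h : s0 ≤ s' ∧ s' + 2 ≤ s ∧ (sl s : ℝ) - sl s' ≤ c0 * sl s
      · exact PrLe_mono (fun _ _ hw => hw.2) le_rfl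
          (hM s s' (by omega) h.2.1 h.2.2 K k1 k2)
      · exact PrLe_false (fun _ _ hw => h hw.1) hE
    · by_cases h : c0 * sl s ≤ (sl s : ℝ) - sl s' ∧ θ * sl s ≤ sl s'
      · exact PrLe_mono (fun _ _ hw => hw.2) le_rfl (hF s s' (by omega) h.1 h.2 K k1 k2)
      · exact PrLe_false (fun _ _ hw => h hw.1) hE
    · refine hT s (by omega) _ (Nat.floor_le ?_) K k1
      have : (0 : ℝ) ≤ sl s := Nat.cast_nonneg _
      positivity
  have hall : PrLe K (fun w => ∃ s ∈ Ico s0 S, ∃ s' ∈ range (s + 1),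
      (B1 s s' w ∨ B2 s s' w) ∨ (B3 s s' w ∨ B4 s s' w)) (∑ s ∈ Ico s0 S, ff s) := by
    refine PrLe_exists _ fun s hs => ?_
    have h := PrLe_exists (range (s + 1)) (fun s' hs' => hev s hs s' hs')
    refine PrLe_mono (fun _ _ hw => hw) ?_ h
    rw [sum_const, card_range, nsmul_eq_mul]
    push_cast
    exact exp_le_ff s
  have hlt : ∑ s ∈ Ico s0 S, ff s < 1 := by
    refine lt_of_le_of_lt ?_ (hs1 S)
    refine sum_le_sum_of_subset_of_nonneg ?_ fun s _ _ => ff_nonneg s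
    intro s hs
    rw [mem_Ico] at hs ⊢
    omega
  obtain ⟨w, hw, hgood⟩ := exists_of_PrLe hlt hall
  have hb : ∀ s, s0 ≤ s → s < S → ∀ s', s' ≤ s →
      ¬ ((B1 s s' w ∨ B2 s s' w) ∨ (B3 s s' w ∨ B4 s s' w)) := by
    intro s h1 h2 s' h3 h4
    exact hgood ⟨s, mem_Ico.2 ⟨h1, h2⟩, s', mem_range.2 (by omega), h4⟩
  refine ⟨w, hw, ?_, ?_, ?_, ?_⟩
  · intro s h1 h2 s' h3 n
    by_contra hc
    rw [not_le] at hc
    refine hb s h1 h2 s' (by omega) (Or.inl (Or.inl ⟨h3, n, lt_of_le_of_lt ?_ hc⟩))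
    exact mul_le_mul_of_nonneg_right hCN (near_nonneg s)
  · intro s s' h0 h1 h2 h3 n
    by_contra hc
    rw [not_le] at hc
    refine hb s (by omega) h2 s' (by omega) (Or.inl (Or.inr ⟨⟨h0, h1, h3⟩, n,
      lt_of_le_of_lt ?_ hc⟩))
    exact mul_le_mul_of_nonneg_right hCM (meso_nonneg (by omega))
  · intro s s' h0 h1 h2 h3 h4 n
    by_contra hc
    rw [not_le] at hc
    exact hb s (by omega) h2 s' h1 (Or.inr (Or.inl ⟨⟨h3, h4⟩, n, lt_of_le_of_lt hCF hc⟩))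
  · intro s h1 h2 j hj y
    by_contra hc
    rw [not_le] at hc
    refine hb s h1 h2 s le_rfl (Or.inr (Or.inr ⟨y, lt_of_le_of_lt hCT (lt_of_lt_of_le hc ?_)⟩))
    have hj' : j ≤ ⌊(θ + η) * sl s⌋₊ := Nat.le_floor hj
    have hNj := Pool.Agent.Helper50.ET.Nj_mono hj'
    exact_mod_cast card_le_card fun a ha => by
      rw [mem_filter] at ha ⊢
      exact ⟨ha.1, ha.2.1, lt_of_lt_of_le ha.2.2 (by omega)⟩

end Pool.Agent.Helper42.T4
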